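import Pool.Agent.Lib_helper50.RP.Final2

open MeasureTheory Set Module
open RPoly

namespace Pool.Agent.Results.MP_5ec613_pr.ProductBodies

/-- For all convex bodies `K i` in `ℝ^(d i)` with twice differentiable boundary of positive
curvature, the expected numbers of `j`-dimensional faces (`0 ≤ j < d`) of the convex hull of `n`
independent uniform points in `K_1 × ... × K_m` and in the product of unit balls have the same
order as `n → ∞`, and so do the expected volume deficits. -/
theorem result (m : ℕ) (hm : 0 < m) (d : Fin m → ℕ) (hd : ∀ i, 0 < d i)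
    (K : ∀ i, Set (EuclideanSpace ℝ (Fin (d i)))) (hK : ∀ i, IsSmoothBody (K i)) :
    (∀ j < ∑ i, d i,
      (∀ n ≥ (∑ i, d i) + 1,
        FacesIntegrable j (Set.pi univ K) n ∧ FacesIntegrable j (ballProd d) n) ∧
      SameOrder (expFaces j (Set.pi univ K)) (expFaces j (ballProd d))) ∧
    (∀ n, VolIntegrable (Set.pi univ K) n ∧ VolIntegrable (ballProd d) n) ∧
      SameOrder (expDeficit (Set.pi univ K)) (expDeficit (ballProd d)) := by
  have hfr : finrank ℝ (∀ i, EuclideanSpace ℝ (Fin (d i))) = ∑ i, d i := by
    rw [Module.finrank_pi_fintype]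
    simp
  have hd' : ∀ i, 0 < finrank ℝ (EuclideanSpace ℝ (Fin (d i))) := by
    intro i; simpa using hd i
  have hball : ∀ i, IsSmoothBody (Metric.closedBall (0 : EuclideanSpace ℝ (Fin (d i))) 1) :=
    fun i => ball_smooth
  have hP := body_pi fun i => (hK i).isBody
  have hZ : IsBody (ballProd d) := body_pi fun i => (hball i).isBody
  obtain ⟨h1, h2⟩ := compare_families hm hK hball hd'
  refine ⟨fun j hj => ⟨fun n hn => ⟨?_, ?_⟩, h1 j (by rw [hfr]; exact hj)⟩,
    fun n => ⟨volHull_integrable hP n, volHull_integrable hZ n⟩, h2⟩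
  · exact faces_integrable hP (by rw [hfr]; exact hn) (by rw [hfr]; exact hj)
  · exact faces_integrable hZ (by rw [hfr]; exact hn) (by rw [hfr]; exact hj)

end Pool.Agent.Results.MP_5ec613_pr.ProductBodies
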